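import Pool.Agent.Work.MP_f94384_co.Final

/-!
# Two-sided bounds for every `r ≥ 2`

For all `r ≥ 2` and `n ≥ 1`: `n - 2 ⌈n / r⌉ ≤ f r n ≤ (1 - 2 / r + 3 / (2 r ^ 3)) n`.
-/

namespace Pool.Agent.Results.MP_f94384_co.AllRBounds

open Pool.Agent.Work.MP_f94384_co

theorem result : ∀ r n : ℕ, 2 ≤ r → 1 ≤ n →
    IsGreatest (sums r n) (f r n) ∧
    (n : ℝ) - 2 * (⌈(n : ℝ) / r⌉₊ : ℝ) ≤ f r n ∧
    f r n ≤ (1 - 2 / (r : ℝ) + 3 / (2 * (r : ℝ) ^ 3)) * n :=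
  fun _ n hr hn => ⟨f_isGreatest (by omega) n, f_lower (by omega) hn, f_upper_all hr hn⟩

end Pool.Agent.Results.MP_f94384_co.AllRBounds
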