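import Pool.Agent.Work.MP_f94384_co.Flag.Fin
import Pool.Agent.Work.MP_f94384_co.Flag.Cert4
import Pool.Agent.Work.MP_f94384_co.Flag.R4Main

/-!
# The exact value of the extremal function for every `r ≥ 4`

For `r ≥ 4` and every `n ≥ 1` the maximum `f r n` of the sum of the largest and the smallest
adjacency eigenvalue over the `K_{r+1}`-free graphs on `n` vertices satisfies
`n - 2 ⌈n / r⌉ ≤ f r n ≤ (1 - 2 / r) n`; in particular it equals `(1 - 2 / r) n` when `r` divides
`n`, and `f r n / n` tends to `1 - 2 / r`.

Idea of the upper bound. Let `x ≥ 0` be a top eigenvector, `λ` its eigenvalue and `μ = - λ_n`.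
Suppose `λ - μ > (1 - 2 / r) n`. Then `∑ x_u x_v` over patterns of `k + 2` vertices, with weights
given by positive semidefinite matrices applied to test vectors which are defined by the adjacency to
`k` root vertices, is positive: one uses `A + μ ≥ 0`, the eigenvalue equation, and, by induction on
`r`, the bound for the neighbourhood of a root. On the other hand the matrices are chosen so that
every pattern gets a nonpositive weight. For `r ≥ 5` there is such a certificate with two roots
whose entries are polynomials in `r`; for `r = 4` there is one with three roots, which uses only the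
bound `λ_1 + λ_n ≤ 7 n / 18` for `K_4`-free graphs.
-/

namespace Pool.Agent.Results.MP_f94384_co.ExactFromFour

open Pool.Agent.Work.MP_f94384_co

theorem result :
    (∀ r n : ℕ, 4 ≤ r → 1 ≤ n →
      IsGreatest (sums r n) (f r n) ∧
      (n : ℝ) - 2 * (⌈(n : ℝ) / r⌉₊ : ℝ) ≤ f r n ∧
      f r n ≤ (1 - 2 / (r : ℝ)) * n ∧
      (r ∣ n → f r n = (1 - 2 / (r : ℝ)) * n)) ∧
    (∀ r : ℕ, 4 ≤ r →
      Filter.Tendsto (fun n : ℕ => f r n / n) Filter.atTop (nhds (1 - 2 / (r : ℝ)))) :=
  ⟨fun _ n hr hn => (Flag.fin_all Flag.cert4 Flag.PB4 hr).1 n hn,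
    fun _ hr => (Flag.fin_all Flag.cert4 Flag.PB4 hr).2⟩

end Pool.Agent.Results.MP_f94384_co.ExactFromFour
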