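import Pool.Agent.Work.MP_f94384_co.Final

/-!
# A spectral inequality for graphs without `K_{r+1}`

For every graph `G` on `n ≥ 1` vertices without `K_{r+1}`, with `s = λ_1 - λ_n`:
`s ^ r ≤ - λ_n * (s^(r-1) + n s^(r-2) + ⋯ + n^(r-1))`. The case `r = 2` is the inequality behind
the bound `(3 - 2 √2) n`.
-/

namespace Pool.Agent.Results.MP_f94384_co.SpreadInequality

open Pool.Agent.Work.MP_f94384_co

theorem result : ∀ r n : ℕ, 1 ≤ r → 1 ≤ n → ∀ G : SimpleGraph (Fin n), G.CliqueFree (r + 1) →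
    (lamMax G - lamMin G) ^ r ≤
      -lamMin G * ∑ i ∈ Finset.range r, (n : ℝ) ^ i * (lamMax G - lamMin G) ^ (r - 1 - i) := by
  intro r n hr hn G hG
  have := spread_inequality G ⟨⟨0, hn⟩, Finset.mem_univ _⟩ hr hG
  rwa [Fintype.card_fin] at this

end Pool.Agent.Results.MP_f94384_co.SpreadInequality
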